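import Pool.Agent.H31.ZR.BEG
import Pool.Agent.H20.LX.T

/-!
Page lx (MP_52e316_nt): the kernel with arbitrary coefficients and its majorant.
-/

set_option autoImplicit false

namespace Pool.Agent.H31.LX

open MeasureTheory Pool.Agent.H27.L1.H34.GM Pool.Agent.H27.L1.H34.GZ Pool.Agent.H27.L1.H34.GU
  Pool.Agent.H27.L1.H34.GA Pool.Agent.H27.L1.H68.GHY
open Pool.Agent.H47.THN (K1 B1)
open Pool.Agent.H20.LX (Kw Ew Cfy T_KX1)
open Pool.Agent.H31.ZR (KerM)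

/-- the kernel of the window with arbitrary coefficients -/
theorem kerM_X (hKX : T_KX1) {m N : ℕ} [NeZero N] {T : ℕ → Finset (ZM m)} {D : Set (V m)}
    (hS : SysZ m N T D) {χ : ℝ → ℝ} (hχ : Prof χ) {y : ℕ} (hy : 1 ≤ y) {a : ℕ → ℂ}
    (ha : Cfy y a) {d x0 : ℝ} (hd : 0 < d) (hd2 : d ≤ 1 / 2) (hx : 0 < x0) :
    KerM (N := N) T D (bi m χ d) (Kw (fun n => ENNReal.ofReal ‖a n‖) d x0)
      (K1 (bi m χ d) a d x0) (fun lam => B1 m lam a y d x0) := by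
  have hN : 1 ≤ N := Nat.one_le_iff_ne_zero.2 (NeZero.ne N)
  have h := hKX m N hS.one_le hN χ hχ y a d x0 hy ha hd hd2 hx
  exact ⟨h.2.1, fun g h' x w => h.1 g h' x w,
    fun F lam hF g x hg => h.2.2.2 T D hS F lam hF g x hg⟩

end Pool.Agent.H31.LX
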