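import Pool.Agent.H31.ZR.BEK
import Pool.Agent.H31.LX.KX

/-!
Page lx (MP_52e316_nt), row BWX: the inequality of Bessel for arbitrary coefficients, forms which
generate orthogonal spaces.
-/

set_option autoImplicit false

namespace Pool.Agent.H31.LX

open MeasureTheory Filter Pool.Agent.H27.L1.H34.GM Pool.Agent.H27.L1.H34.GZ
  Pool.Agent.H27.L1.H34.GU Pool.Agent.H27.L1.H34.GA Pool.Agent.H27.L1.H68.GHY
open Pool.Agent.H27.L1.H68.GHK (ip rt Bn Hn OrS T_IPT)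
open Pool.Agent.H47.THN (K1 B1)
open Pool.Agent.H20.LX (Kw Ew Cfy T_KX1 BESX T_BWX)
open Pool.Agent.H31.ZR (KerM EM T_BEKM)

theorem pf_BWX (hKX : T_KX1) (hBEK : T_BEKM) : T_BWX := by
  intro m χ r hm1 hχ hr
  obtain ⟨c, C, A, hc, hC, hB⟩ := hBEK m χ r hm1 hχ hr
  have hC0 : 0 < C := by linarith
  refine ⟨min c C⁻¹, C, A, lt_min hc (by positivity), hC, ?_⟩
  intro N _ T D hS ι _ _ F lam P hF hO hP δ hδ hδ2 hδc Y hY y a x0 hy ha hx
  have h1 := hB N T D hS ι F lam (fun _ => P) (fun i => ⟨(hF i).1, (hF i).2, hP⟩) hO δ hδ hδ2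
    (fun _ => hδc.trans (min_le_left _ _)) Y hY _ _ _
    (kerM_X hKX hS hχ hy ha hδ hδ2 hx)
  have hH0 : ∀ i, 0 ≤ Hn r D (F i) := fun i => integral_nonneg fun z => by positivity
  have e1 : ENNReal.ofReal (min c C⁻¹ * tb m χ δ ^ 2) ≤
      ENNReal.ofReal C⁻¹ * ENNReal.ofReal (tb m χ δ ^ 2) := by
    rw [← ENNReal.ofReal_mul (by positivity)]
    refine ENNReal.ofReal_le_ofReal ?_
    gcongr
    exact min_le_right _ _
  have e2 : ∑ i, ENNReal.ofReal (Hn r D (F i))⁻¹ *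
      ENNReal.ofReal (‖B1 m (lam i) a y δ x0‖ ^ 2) =
      ∑ i, ENNReal.ofReal (‖B1 m (lam i) a y δ x0‖ ^ 2 * (Hn r D (F i))⁻¹) := by
    refine Finset.sum_congr rfl fun i _ => ?_
    have := hH0 i
    rw [← ENNReal.ofReal_mul (by positivity), mul_comm]
  beta_reduce
  rw [e2]
  refine (mul_le_mul' e1 le_rfl).trans ?_
  rw [mul_assoc]
  refine (mul_le_mul' le_rfl h1).trans ?_
  rw [← mul_assoc, ← ENNReal.ofReal_mul (by positivity), inv_mul_cancel₀ hC0.ne',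
    ENNReal.ofReal_one, one_mul]
  exact le_rfl

end Pool.Agent.H31.LX
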